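import Pool.Agent.Helper4.WR.Fin

/-!
# Sections of families of complete intersections over the projective line
-/

set_option autoImplicit false
set_option linter.all false

namespace Pool.Agent.Helper4.WS

open MvPolynomial Pool.Agent.K369

section Gen

variable {k : Type*} [Field k] {ι : Type*} [Fintype ι]

theorem wsum {a : ι → ℕ} {F : MvPolynomial ι k} {d : ℕ} (hF : IsWeightedHomogeneous a F d)
    {e : ι →₀ ℕ} (he : e ∈ F.support) : ∑ i, e i * a i = d := by
  have h := hF (mem_support_iff.1 he)
  rw [Finsupp.weight_apply, Finsupp.sum_fintype _ _ (by simp)] at h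
  simpa using h

theorem aeval_exp {A : Type*} [CommRing A] [Algebra k A] (g : ι → A) (F : MvPolynomial ι k) :
    aeval g F = ∑ e ∈ F.support, algebraMap k A (F.coeff e) * ∏ i, g i ^ e i := by
  rw [aeval_def, eval₂_eq']

theorem aeval_scale {A : Type*} [CommRing A] [Algebra k A] {a : ι → ℕ} {F : MvPolynomial ι k} {d : ℕ}
    (hF : IsWeightedHomogeneous a F d) (b : A) (z : ι → A) :
    aeval (fun i => b ^ a i * z i) F = b ^ d * aeval z F := by
  rw [aeval_exp, aeval_exp, Finset.mul_sum]
  refine Finset.sum_congr rfl fun e he => ?_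
  have h : ∏ i, (b ^ a i * z i) ^ e i = b ^ d * ∏ i, z i ^ e i := by
    rw [← wsum hF he, ← Finset.prod_pow_eq_pow_sum, ← Finset.prod_mul_distrib]
    refine Finset.prod_congr rfl fun i _ => ?_
    rw [mul_pow, ← pow_mul, mul_comm (a i)]
  rw [h]
  ring

theorem deg_aeval {a : ι → ℕ} {F : MvPolynomial ι k} {d : ℕ} (hF : IsWeightedHomogeneous a F d)
    (g : ι → Polynomial k) (hg : ∀ i, (g i).natDegree ≤ a i) : (aeval g F).natDegree ≤ d := by
  rw [aeval_exp]
  refine Polynomial.natDegree_sum_le_of_forall_le _ _ fun e he => ?_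
  refine (Polynomial.natDegree_C_mul_le _ _).trans ?_
  refine (Polynomial.natDegree_prod_le _ _).trans ?_
  rw [← wsum hF he]
  refine Finset.sum_le_sum fun i _ => ?_
  exact (Polynomial.natDegree_pow_le).trans (Nat.mul_le_mul_left _ (hg i))

theorem hom_bind {τ : Type*} {a : ι → ℕ} {F : MvPolynomial ι k} {d : ℕ} (hF : IsWeightedHomogeneous a F d)
    (φ : ι → MvPolynomial τ k) (hφ : ∀ i, (φ i).IsHomogeneous (a i)) :
    (bind₁ φ F).IsHomogeneous d := by
  show (aeval φ F).IsHomogeneous d
  rw [aeval_exp]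
  refine IsHomogeneous.sum _ _ _ fun e he => ?_
  have h2 : d = 0 + ∑ i, a i * e i := by
    rw [← wsum hF he, zero_add]
    exact Finset.sum_congr rfl fun i _ => by ring
  rw [h2]
  refine (isHomogeneous_C _ _).mul ?_
  exact IsHomogeneous.prod _ _ _ fun i _ => (hφ i).pow (e i)

/-- a curve given by polynomials, as a curve given by forms -/
theorem bind_homogenize {a : ι → ℕ} {F : MvPolynomial ι k} {d : ℕ} (hF : IsWeightedHomogeneous a F d)
    (g : ι → Polynomial k) (hg : ∀ i, (g i).natDegree ≤ a i) (h : aeval g F = 0) :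
    bind₁ (fun i => (g i).homogenize (a i)) F = 0 := by
  have h1 := hom_bind hF (fun i => (g i).homogenize (a i)) fun i => Polynomial.isHomogeneous_homogenize _
  have h2 : aeval ![Polynomial.X, 1] (bind₁ (fun i => (g i).homogenize (a i)) F) = (0 : Polynomial k) := by
    rw [← h, aeval_bind₁]
    congr 2
    funext i
    exact Polynomial.aeval_homogenize_X_one _ (hg i)
  have h3 := Polynomial.homogenize_eq_of_isHomogeneous h1 h2
  rw [← h3, Polynomial.homogenize_zero]

theorem eval_zero_one_homogenize (p : Polynomial k) (N : ℕ) (hp : p.natDegree ≤ N) :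
    eval ![0, 1] (p.homogenize N) = p.coeff 0 := by
  rw [Polynomial.eval_homogenize hp _ (by simp)]
  simp [Polynomial.coeff_zero_eq_eval_zero]

variable {V : Type*}

/-- all coefficients are forms of degree `e` -/
def Hd (e : ℕ) (p : Polynomial (MvPolynomial V k)) : Prop := ∀ v, (p.coeff v).IsHomogeneous e

theorem Hd.mul {e f : ℕ} {p q : Polynomial (MvPolynomial V k)} (hp : Hd e p) (hq : Hd f q) : Hd (e + f) (p * q) :=
  fun v => by
    rw [Polynomial.coeff_mul]
    exact IsHomogeneous.sum _ _ _ fun x hx => (hp x.1).mul (hq x.2)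

theorem Hd.one : Hd 0 (1 : Polynomial (MvPolynomial V k)) := fun v => by
  rw [Polynomial.coeff_one]
  split_ifs
  · exact isHomogeneous_one _ _
  · exact isHomogeneous_zero _ _ _

theorem Hd.pow {e : ℕ} {p : Polynomial (MvPolynomial V k)} (hp : Hd e p) (f : ℕ) : Hd (f * e) (p ^ f) := by
  induction f with
  | zero => simpa using Hd.one
  | succ f ih => rw [pow_succ, Nat.succ_mul]; exact ih.mul hp

theorem Hd.prod {κ : Type*} (s : Finset κ) (p : κ → Polynomial (MvPolynomial V k)) (e : κ → ℕ)
    (h : ∀ i ∈ s, Hd (e i) (p i)) : Hd (∑ i ∈ s, e i) (∏ i ∈ s, p i) := by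
  classical
  induction s using Finset.induction_on with
  | empty => simpa using Hd.one
  | insert a s ha ih =>
    rw [Finset.prod_insert ha, Finset.sum_insert ha]
    exact (h a (Finset.mem_insert_self _ _)).mul (ih fun i hi => h i (Finset.mem_insert_of_mem hi))

theorem Hd.aeval {a : ι → ℕ} {F : MvPolynomial ι k} {d : ℕ} (hF : IsWeightedHomogeneous a F d)
    (G : ι → Polynomial (MvPolynomial V k)) (hG : ∀ i, Hd (a i) (G i)) : Hd d (MvPolynomial.aeval G F) := by
  intro v
  rw [aeval_exp, Polynomial.finset_sum_coeff]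
  refine IsHomogeneous.sum _ _ _ fun e he => ?_
  have h := Hd.prod Finset.univ (fun i => G i ^ e i) (fun i => e i * a i) (fun i _ => (hG i).pow (e i))
  rw [wsum hF he] at h
  have h2 : (algebraMap k (Polynomial (MvPolynomial V k)) (F.coeff e)) = Polynomial.C (C (F.coeff e)) := rfl
  rw [h2, Polynomial.coeff_C_mul]
  have h3 := (isHomogeneous_C V (F.coeff e)).mul (h v)
  rwa [zero_add] at h3

theorem spec' (z : V → k) (G : ι → Polynomial (MvPolynomial V k)) (F : MvPolynomial ι k) (v : ℕ) :
    eval z ((MvPolynomial.aeval G F).coeff v) =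
      (MvPolynomial.aeval (fun i => (G i).map (eval z : MvPolynomial V k →+* k)) F).coeff v := by
  have e2 : (Polynomial.mapAlgHom (MvPolynomial.aeval z : MvPolynomial V k →ₐ[k] k)).comp (MvPolynomial.aeval G) =
      MvPolynomial.aeval (fun i => (G i).map (eval z : MvPolynomial V k →+* k)) := by
    apply MvPolynomial.algHom_ext
    intro i
    rw [AlgHom.comp_apply, MvPolynomial.aeval_X, MvPolynomial.aeval_X, Polynomial.coe_mapAlgHom]
    rfl
  rw [← e2, AlgHom.comp_apply, Polynomial.coe_mapAlgHom, Polynomial.coeff_map]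
  rfl

end Gen

section Sect

variable {k : Type*} [Field k] {m n r : ℕ}

/-- the weights of the degree in the variables of the fibre -/
def w1 (m n : ℕ) : Fin m ⊕ Fin n → ℕ := Sum.elim (fun _ => 0) (fun _ => 1)

/-- the weights of the degree in the variables of the base -/
def w2 (m n : ℕ) : Fin m ⊕ Fin n → ℕ := Sum.elim (fun _ => 1) (fun _ => 0)

/-- the weights for curves of degree `M`, `S` -/
def w3 (m n M S : ℕ) : Fin m ⊕ Fin n → ℕ := Sum.elim (fun _ => M) (fun _ => S)

theorem hw3 {F : MvPolynomial (Fin m ⊕ Fin n) k} {c d : ℕ} (h1 : IsWeightedHomogeneous (w1 m n) F d)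
    (h2 : IsWeightedHomogeneous (w2 m n) F c) (M S : ℕ) : IsWeightedHomogeneous (w3 m n M S) F (M * c + S * d) := by
  intro e he
  have e1 := wsum h1 (mem_support_iff.2 he)
  have e2 := wsum h2 (mem_support_iff.2 he)
  rw [Finsupp.weight_apply, Finsupp.sum_fintype _ _ (by simp)]
  rw [← e1, ← e2, Finset.mul_sum, Finset.mul_sum, ← Finset.sum_add_distrib]
  refine Finset.sum_congr rfl fun i _ => ?_
  rcases i with i | i
  · simp [w1, w2, w3, mul_comm]
  · simp [w1, w2, w3, mul_comm]

theorem section_exists (hk : IsC1 k) (hn : ∀ e, 1 ≤ e → HasNormic k e) {F : Fin r → MvPolynomial (Fin m ⊕ Fin n) k}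
    {c d : Fin r → ℕ} (hd : ∀ j, 1 ≤ d j) (h1 : ∀ j, IsWeightedHomogeneous (w1 m n) (F j) (d j))
    (h2 : ∀ j, IsWeightedHomogeneous (w2 m n) (F j) (c j)) (hsum : ∑ j, d j ^ 2 < n) (M : ℕ)
    (g : Fin m → Polynomial k) (hg : ∀ i, (g i).natDegree ≤ M) :
    ∃ (S : ℕ) (h : Fin n → Polynomial k), (∀ i, (h i).natDegree ≤ S) ∧ (∃ i, h i ≠ 0) ∧
      ∀ j, aeval (Sum.elim g h) (F j) = 0 := by
  classical
  let Cn := ∑ j, (M * c j + 1) * d j
  let S := Cn
  let V := Fin n × Fin (S + 1)
  let H : Fin n → Polynomial (MvPolynomial V k) := fun i =>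
    ∑ u : Fin (S + 1), Polynomial.C (X (i, u)) * Polynomial.X ^ u.val
  let G : Fin m ⊕ Fin n → Polynomial (MvPolynomial V k) :=
    Sum.elim (fun i => (g i).map (C : k →+* MvPolynomial V k)) H
  have hG : ∀ i, Hd (w1 m n i) (G i) := by
    rintro (i | i) v
    · show ((((g i).map (C : k →+* MvPolynomial V k))).coeff v).IsHomogeneous 0
      rw [Polynomial.coeff_map]
      exact isHomogeneous_C _ _
    · show ((∑ u : Fin (S + 1), Polynomial.C (X (i, u) : MvPolynomial V k) * Polynomial.X ^ u.val).coeff v).IsHomogeneous 1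
      rw [Polynomial.finset_sum_coeff]
      refine IsHomogeneous.sum _ _ _ fun u _ => ?_
      rw [Polynomial.coeff_C_mul_X_pow]
      split_ifs
      · exact isHomogeneous_X _ _
      · exact isHomogeneous_zero _ _ _
  let J := Σ j : Fin r, Fin (M * c j + S * d j + 1)
  obtain ⟨z, hz, hz0⟩ := lang_nagata hk hn (J := J) (ι := V) (fun s => d s.1) (fun s => hd s.1)
    (fun s => (aeval G (F s.1)).coeff s.2.val) (fun s => Hd.aeval (h1 s.1) G hG s.2.val) (by
      rw [Fintype.sum_sigma, Fintype.card_prod, Fintype.card_fin, Fintype.card_fin]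
      have e1 : ∀ j, ∑ x : Fin (M * c j + S * d j + 1), d j = (M * c j + 1) * d j + S * d j ^ 2 := fun j => by
        rw [Finset.sum_const, Finset.card_univ, Fintype.card_fin, smul_eq_mul]
        ring
      rw [Finset.sum_congr rfl fun j _ => e1 j, Finset.sum_add_distrib, ← Finset.mul_sum]
      show Cn + S * ∑ j, d j ^ 2 < n * (S + 1)
      have e3 : S * (∑ j, d j ^ 2 + 1) ≤ S * n := Nat.mul_le_mul_left _ hsum
      have e5 : n * (S + 1) = S * n + n := by ring
      have e6 : S * (∑ j, d j ^ 2 + 1) = Cn + S * ∑ j, d j ^ 2 := by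
        rw [mul_add, mul_one, add_comm]
      rw [e5]
      omega)
  refine ⟨S, fun i => ∑ u : Fin (S + 1), Polynomial.C (z (i, u)) * Polynomial.X ^ u.val, ?_, ?_, ?_⟩
  · intro i
    refine Polynomial.natDegree_sum_le_of_forall_le _ _ fun u _ => ?_
    refine (Polynomial.natDegree_C_mul_X_pow_le _ _).trans ?_
    have := u.isLt
    omega
  · by_contra hcon
    push Not at hcon
    apply hz
    funext ⟨i, u⟩
    have h := congrArg (fun p => Polynomial.coeff p u.val) (hcon i)
    simp only [Polynomial.finset_sum_coeff, Polynomial.coeff_C_mul_X_pow, Polynomial.coeff_zero] at h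
    rw [Finset.sum_eq_single u] at h
    · simpa using h
    · intro v _ hv
      rw [if_neg]
      intro h'
      exact hv (Fin.ext h'.symm)
    · intro h'
      exact absurd (Finset.mem_univ u) h'
  · intro j
    have hGz : (fun i => (G i).map (eval z : MvPolynomial V k →+* k)) =
        Sum.elim g (fun i => ∑ u : Fin (S + 1), Polynomial.C (z (i, u)) * Polynomial.X ^ u.val) := by
      funext i
      rcases i with i | i
      · show ((g i).map (C : k →+* MvPolynomial V k)).map (eval z : MvPolynomial V k →+* k) = g i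
        rw [Polynomial.map_map]
        have : (eval z : MvPolynomial V k →+* k).comp C = RingHom.id k := by
          ext x; simp
        rw [this, Polynomial.map_id]
      · show (∑ u : Fin (S + 1), Polynomial.C (X (i, u) : MvPolynomial V k) * Polynomial.X ^ u.val).map
          (eval z : MvPolynomial V k →+* k) = ∑ u : Fin (S + 1), Polynomial.C (z (i, u)) * Polynomial.X ^ u.val
        rw [Polynomial.map_sum]
        refine Finset.sum_congr rfl fun u _ => ?_
        rw [Polynomial.map_mul, Polynomial.map_C, Polynomial.map_pow, Polynomial.map_X, eval_X]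
    ext v
    rw [Polynomial.coeff_zero, ← hGz]
    by_cases hv : v < M * c j + S * d j + 1
    · have h := hz0 ⟨j, ⟨v, hv⟩⟩
      have h' : eval z ((aeval G (F j)).coeff v) = 0 := h
      rw [← h']
      exact (spec' z G (F j) v).symm
    · apply Polynomial.coeff_eq_zero_of_natDegree_lt
      rw [hGz]
      have := deg_aeval (hw3 (h1 j) (h2 j) M S)
        (Sum.elim g (fun i => ∑ u : Fin (S + 1), Polynomial.C (z (i, u)) * Polynomial.X ^ u.val)) (by
          rintro (i | i)
          · exact hg i
          · refine Polynomial.natDegree_sum_le_of_forall_le _ _ fun u _ => ?_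
            refine (Polynomial.natDegree_C_mul_X_pow_le _ _).trans ?_
            have := u.isLt
            show u.val ≤ S
            omega)
      omega

theorem section_good (hk : IsC1 k) (hn : ∀ e, 1 ≤ e → HasNormic k e) {F : Fin r → MvPolynomial (Fin m ⊕ Fin n) k}
    {c d : Fin r → ℕ} (hd : ∀ j, 1 ≤ d j) (h1 : ∀ j, IsWeightedHomogeneous (w1 m n) (F j) (d j))
    (h2 : ∀ j, IsWeightedHomogeneous (w2 m n) (F j) (c j)) (hsum : ∑ j, d j ^ 2 < n) (M : ℕ)
    (g : Fin m → Polynomial k) (hg : ∀ i, (g i).natDegree ≤ M) :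
    ∃ (S : ℕ) (h : Fin n → Polynomial k), (∀ i, (h i).natDegree ≤ S) ∧ (fun i => (h i).coeff 0) ≠ 0 ∧
      (fun i => (h i).coeff S) ≠ 0 ∧ ∀ j, aeval (Sum.elim g h) (F j) = 0 := by
  classical
  have hex := section_exists hk hn hd h1 h2 hsum M g hg
  let S := Nat.find hex
  obtain ⟨h, hS, ⟨i₀, hi₀⟩, hz⟩ := Nat.find_spec hex
  have hmin : ∀ T, T < S → ¬ ∃ h : Fin n → Polynomial k, (∀ i, (h i).natDegree ≤ T) ∧ (∃ i, h i ≠ 0) ∧
      ∀ j, aeval (Sum.elim g h) (F j) = 0 := fun T hT => Nat.find_min hex hT
  refine ⟨S, h, hS, ?_, ?_, hz⟩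
  · intro h0
    have h0' : ∀ i, (h i).coeff 0 = 0 := fun i => congrFun h0 i
    have hSpos : 0 < S := by
      by_contra hcon
      have hS0 : (h i₀).natDegree ≤ 0 := by have := hS i₀; change (h i₀).natDegree ≤ S at this; omega
      apply hi₀
      rw [Polynomial.eq_C_of_natDegree_le_zero hS0, h0' i₀, Polynomial.C_0]
    have hdx : ∀ i, Polynomial.X * (h i).divX = h i := fun i => by
      have := Polynomial.divX_mul_X_add (h i)
      rw [h0' i, Polynomial.C_0, add_zero] at this
      rw [mul_comm]; exact this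
    refine hmin (S - 1) (by omega) ⟨fun i => (h i).divX, fun i => ?_, ⟨i₀, fun hc => hi₀ ?_⟩, fun j => ?_⟩
    · rw [Polynomial.natDegree_divX_eq_natDegree_tsub_one]
      have := hS i
      change (h i).natDegree ≤ S at this
      omega
    · have hc' : (h i₀).divX = 0 := hc
      rw [← hdx i₀, hc', mul_zero]
    · have e := aeval_scale (h1 j) (Polynomial.X : Polynomial k) (Sum.elim g (fun i => (h i).divX))
      have e2 : (fun i => (Polynomial.X : Polynomial k) ^ w1 m n i * Sum.elim g (fun i => (h i).divX) i) =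
          Sum.elim g h := by
        funext i
        rcases i with i | i
        · simp [w1]
        · simp [w1, hdx i]
      rw [e2, hz j] at e
      exact (mul_eq_zero.1 e.symm).resolve_left (pow_ne_zero _ Polynomial.X_ne_zero)
  · intro h0
    have h0' : ∀ i, (h i).coeff S = 0 := fun i => congrFun h0 i
    have hSpos : 0 < S := by
      by_contra hcon
      have hS00 : S = 0 := by omega
      have hS0 : (h i₀).natDegree ≤ 0 := by have := hS i₀; change (h i₀).natDegree ≤ S at this; omega
      apply hi₀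
      have h3 := h0' i₀
      rw [hS00] at h3
      rw [Polynomial.eq_C_of_natDegree_le_zero hS0, h3, Polynomial.C_0]
    refine hmin (S - 1) (by omega) ⟨h, fun i => ?_, ⟨i₀, hi₀⟩, hz⟩
    have h3 := hS i
    change (h i).natDegree ≤ S at h3
    by_contra hcon
    have h4 : (h i).natDegree = S := by omega
    have h5 := h0' i
    rw [← h4] at h5
    have h6 : (h i).leadingCoeff = 0 := h5
    rw [Polynomial.leadingCoeff_eq_zero] at h6
    rw [h6] at h4
    simp at h4
    omega

end Sect

end Pool.Agent.Helper4.WS
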